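import Pool.Agent.H3.SQ.All
import Pool.Graph.R_pool_sql_team_seeded_707910d6.T2H54.CL.Asm5
import Pool.Graph.R_pool_sql_team_seeded_707910d6.T2H54.CL.A4RQ
import Pool.Graph.R_pool_sql_team_seeded_707910d6.T2H54.CL.CTRQ
import Pool.Graph.R_pool_sql_team_seeded_707910d6.T2H54.CL.GLRQ
import Pool.Graph.R_pool_sql_team_seeded_707910d6.T2H54.CL.K1
import Pool.Graph.R_pool_sql_team_seeded_707910d6.T2H54.CL.LCMQ
import Pool.Graph.R_pool_sql_team_seeded_707910d6.T2H54.CL.MVK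
import Pool.Graph.R_pool_sql_team_seeded_707910d6.T2H54.CL.NSQ
import Pool.Graph.R_pool_sql_team_seeded_707910d6.T2H54.CL.OPB
import Pool.Graph.R_pool_sql_team_seeded_707910d6.T2H54.CL.QDQ
import Pool.Graph.R_pool_sql_team_seeded_707910d6.T2H54.CL.SPD
import Pool.Graph.R_pool_sql_team_seeded_707910d6.T2H54.CL.SSRQ
import Pool.Graph.R_pool_sql_team_seeded_707910d6.T2H54.CL.SWQ
import Pool.Graph.R_pool_sql_team_seeded_707910d6.T2H54.CL.TNQ
import Pool.Graph.R_pool_sql_team_seeded_707910d6.T2H54.CL.VBQ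
import Pool.Graph.R_pool_sql_team_seeded_707910d6.T2H54.CL.XD
import Pool.Graph.R_pool_sql_team_seeded_707910d6.T2H54.CL.ZMRQ
import Pool.Graph.R_pool_sql_team_seeded_707910d6.T2H54.TP.AFA
import Pool.Graph.R_pool_sql_team_seeded_707910d6.T2H54.TP.AFB
import Pool.Graph.R_pool_sql_team_seeded_707910d6.T2H54.TP.AFD
import Pool.Graph.R_pool_sql_team_seeded_707910d6.T2H54.TP.BV
import Pool.Graph.R_pool_sql_team_seeded_707910d6.T2H54.TP.CHD
import Pool.Graph.R_pool_sql_team_seeded_707910d6.T2H54.TP.DG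
import Pool.Graph.R_pool_sql_team_seeded_707910d6.T2H54.TP.Q4
import Pool.Graph.R_pool_sql_team_seeded_707910d6.T2H54.TP.SPC
import Pool.Graph.R_pool_sql_team_seeded_707910d6.T2H54.TP.TAB
import Pool.Graph.R_pool_sql_team_seeded_707910d6.T2H54.TP.TSM
import Pool.Graph.R_pool_sql_team_seeded_707910d6.T2H54.TP.WD

set_option autoImplicit false

/-! All the parts of project CL together. -/

namespace Pool.Agent.H3.CL

open Complex Filter Topology MeasureTheory Set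
open Pool.Agent.TH612.CF Pool.Agent.TH612.GS Pool.Agent.T2H54.SB Pool.Agent.T2H54.TP Pool.Agent.T2H54.CL

theorem cWD : S_WD := t_WD
theorem cAFD : S_AFD := t_AFD (t_AFA t_CHD) (t_AFB t_WD)
theorem cDG : S_DG := t_DG t_WD
theorem cBV : S_BV := t_BV t_WD
theorem cTSM : S_TSM := t_TSM cWD cAFD t_SPC cDG cBV
theorem cTAB : S_TAB := t_TAB cTSM
theorem cK1 : S_K1 := t_K1 cWD cAFD cDG cBV t_SPD
theorem cQ4 : S_Q4 := t_Q4

theorem clusters (n : ℕ) (hn : 1 ≤ n) :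
    ∃ δ : ℝ, 0 < δ ∧ ∀ a b : Fin (n + 1) → ℝ, (∀ j, a j ≠ b j) → ∃ T₀ : ℝ, ∀ T : ℝ,
      T₀ ≤ T → mP (Fin n) T (BadQ a b T (T * T ^ (-δ))) ≤ ENNReal.ofReal (T ^ n * T ^ (-δ)) :=
  mainQ cK1 t_OPB (t_VBQ cQ4) t_QDQ (t_TNQ cTAB t_XD) (t_SSRQ t_LCMQ) (t_A4RQ t_CTRQ (t_GLRQ t_MVK))
    t_ZMRQ t_NSQ t_SWQ cQ4 Pool.Agent.H3.SQ.aONE n hn

end Pool.Agent.H3.CL

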